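import Mathlib
import Pool.Agent.X83.DM.Stm

set_option autoImplicit false

namespace Pool.Agent.H329.DM

open Pool.Agent.X83.DM

theorem t_EX : S_EX := by
  intro a c
  let A : (ℝ × ℝ) →L[ℝ] (ℝ × ℝ) := (ContinuousLinearMap.snd ℝ ℝ ℝ).prod
    (-(c • ContinuousLinearMap.snd ℝ ℝ ℝ) - a • ContinuousLinearMap.fst ℝ ℝ ℝ)
  have hA : ∀ p : ℝ × ℝ, A p = (p.2, -(c * p.2) - a * p.1) := by
    intro p; simp [A]
  let X : ℝ → ℝ × ℝ := fun t => NormedSpace.exp (t • A) ((0 : ℝ), (1 : ℝ))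
  have hX : ∀ t, HasDerivAt X (A (X t)) t := by
    intro t
    have h1 := hasDerivAt_exp_smul_const' (𝕂 := ℝ) A t
    have h2 := h1.clm_apply (hasDerivAt_const t ((0 : ℝ), (1 : ℝ)))
    simpa [X] using h2
  have hX0 : X 0 = (0, 1) := by simp [X]
  refine ⟨fun t => (X t).1, fun t => (X t).2, ⟨by simp [hX0], by simp [hX0], ?_, ?_⟩⟩
  · intro t
    have h := (hX t)
    have h2 := (hasFDerivAt_fst (𝕜 := ℝ) (p := X t)).comp_hasDerivAt t h
    rw [hA] at h2
    exact h2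
  · intro t
    have h := (hX t)
    have h2 := (hasFDerivAt_snd (𝕜 := ℝ) (p := X t)).comp_hasDerivAt t h
    rw [hA] at h2
    exact h2

end Pool.Agent.H329.DM
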